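import Mathlib.Algebra.Order.Star.Real
import Pool.Agent.MP_96f5a9_co.h16.IISpec

/-! Row CELL: the central factors of a top point are served at the reference rate. -/

set_option autoImplicit false

namespace Pool.Agent.MP_96f5a9_co.H16

open Finset H51 H80

namespace CellA

/-- the indicator of a window -/
noncomputable def ind (m a c j : ℕ) : ℝ := if m ≤ j + a ∧ j + a < m + c then 1 else 0

lemma ind_nonneg (m a c j : ℕ) : 0 ≤ ind m a c j := by
  unfold ind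
  split_ifs <;> norm_num

lemma ind_one {m a c j : ℕ} (h1 : m ≤ j + a) (h2 : j + a < m + c) : ind m a c j = 1 :=
  if_pos ⟨h1, h2⟩

lemma sum_ind (m a c : ℕ) : ∑ j ∈ range m, ind m a c j ≤ c := by
  unfold ind
  rw [sum_boole]
  have : ((range m).filter fun j => m ≤ j + a ∧ j + a < m + c).card ≤ (Ico m (m + c)).card :=
    card_le_card_of_injOn (· + a) (fun j hj => by
      have := (mem_filter.1 (mem_coe.1 hj)).2
      exact mem_coe.2 (mem_Ico.2 this)) fun _ _ _ _ h => Nat.add_right_cancel h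
  rw [Nat.card_Ico, Nat.add_sub_cancel_left] at this
  exact_mod_cast this

lemma dm {m r : ℕ} (k : ℕ) (h : r < m) : (m * k + r) / m = k ∧ (m * k + r) % m = r :=
  ⟨by rw [Nat.mul_add_div (by omega), Nat.div_eq_of_lt h, add_zero],
    by rw [Nat.mul_add_mod, Nat.mod_eq_of_lt h]⟩

lemma fl_lo {m x k u : ℕ} (hu : x + u = m * k + m) (h1 : 1 ≤ u) (h2 : u ≤ m) :
    fl m x = m * k := by
  obtain ⟨r, hr⟩ : ∃ r, r + u = m := ⟨m - u, by omega⟩
  rw [fl, show x = m * k + r by omega, (dm k (by omega : r < m)).1]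

lemma bt_lo {m x k u : ℕ} (L : ℕ) (ξ : ℝ) (hx : m ≤ x) (hu : x + u = m * k + m) (h1 : 1 ≤ u)
    (h2 : u ≤ m) : bt m L ξ x = m * (1 - ξ) * max (1 - (u : ℝ) / L) 0 := by
  obtain ⟨r, hr⟩ : ∃ r, r + u = m := ⟨m - u, by omega⟩
  have e : (m : ℝ) - r = u := by rw [← hr]; push_cast; ring
  rw [bt, if_neg (by omega), show x = m * k + r by omega, (dm k (by omega : r < m)).2, e]

lemma fl_hi {m x k r : ℕ} (hu : x = m * k + m + r) (h : r < m) : fl m x = m * k + m := by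
  rw [fl, show x = m * (k + 1) + r by rw [hu]; ring, (dm (k + 1) h).1]
  push_cast
  ring

lemma bt_hi {m x k r L : ℕ} (ξ : ℝ) (hu : x = m * k + m + r) (hL : 0 < L) (h : r + L ≤ m) :
    bt m L ξ x = 0 := by
  have h' : (r : ℝ) + L ≤ m := by exact_mod_cast h
  have hL' : (0 : ℝ) < L := by exact_mod_cast hL
  rw [bt, if_neg (by omega), show x = m * (k + 1) + r by rw [hu]; ring,
    (dm (k + 1) (by omega : r < m)).2, max_eq_right, mul_zero]
  rw [sub_nonpos, le_div_iff₀ hL']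
  linarith

variable {ι : Type}

lemma cell_pos {C : Finset ι} (γ : ι → ℕ) {k : ι} (hk : k ∈ C) : (0 : ℝ) < (cell C γ k).card :=
  Nat.cast_pos.2 (card_pos.2 ⟨k, mem_filter.2 ⟨hk, rfl⟩⟩)

lemma fib (C : Finset ι) (γ : ι → ℕ) (w : ι → ℝ) (φ : ℕ → ℝ) : ∑ k ∈ C, w k * φ (γ k) =
    ∑ k ∈ C, (∑ j ∈ cell C γ k, w j) / (cell C γ k).card * φ (γ k) := by
  have e := sum_comp (s := C) (fun c => (∑ j ∈ C.filter (fun j => γ j = c), w j) /
    (C.filter fun j => γ j = c).card * φ c) γ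
  refine Eq.trans ?_ e.symm
  rw [← sum_fiberwise_of_maps_to (t := C.image γ) (g := γ) fun k hk => mem_image_of_mem γ hk]
  refine sum_congr rfl fun c hc => ?_
  obtain ⟨k, hk, rfl⟩ := mem_image.1 hc
  have : ((C.filter fun j => γ j = γ k).card : ℝ) ≠ 0 := (cell_pos γ hk).ne'
  rw [nsmul_eq_mul, sum_congr rfl fun j hj => by rw [(mem_filter.1 hj).2], ← sum_mul]
  field_simp

lemma cnt (C : Finset ι) (γ : ι → ℕ) :
    ∑ k ∈ C, (1 : ℝ) / (cell C γ k).card = (C.image γ).card := by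
  have e := sum_comp (s := C) (fun c => (1 : ℝ) / (C.filter fun j => γ j = c).card) γ
  refine e.trans ?_
  rw [card_eq_sum_ones (C.image γ), Nat.cast_sum]
  refine sum_congr rfl fun c hc => ?_
  obtain ⟨k, hk, rfl⟩ := mem_image.1 hc
  have : ((C.filter fun j => γ j = γ k).card : ℝ) ≠ 0 := (cell_pos γ hk).ne'
  rw [nsmul_eq_mul]
  field_simp
  simp

lemma dp_cast (P : Finset ι) (y : ι → ℕ) : (dp P y : ℝ) = ∑ j ∈ P, (y j : ℝ) := by
  rw [dp, Nat.cast_sum]

lemma sum_hh {C : Finset ι} (hC : C.Nonempty) (γ : ι → ℕ) (y : ι → ℕ) :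
    ∑ k ∈ C, hh C γ y k ≤ 0 := by
  have hJ : (0 : ℝ) < (C.image γ).card := Nat.cast_pos.2 (card_pos.2 (hC.image γ))
  have hD : (0 : ℝ) < (dp C y : ℝ) + (C.image γ).card := by positivity
  have e1 := fib C γ (fun k => (y k : ℝ)) fun _ => 1
  simp only [mul_one, ← dp_cast] at e1
  have e2 : ∑ k ∈ C, (((dp (cell C γ k) y : ℝ) + 1) * C.card /
      (((dp C y : ℝ) + (C.image γ).card) * (cell C γ k).card) - 1) = 0 := by
    have : ∀ k ∈ C, ((dp (cell C γ k) y : ℝ) + 1) * C.card /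
        (((dp C y : ℝ) + (C.image γ).card) * (cell C γ k).card) - 1 =
        (C.card / ((dp C y : ℝ) + (C.image γ).card)) *
          ((dp (cell C γ k) y : ℝ) / (cell C γ k).card + 1 / (cell C γ k).card) - 1 := by
      intro k hk
      have := (cell_pos γ hk).ne'
      field_simp
    rw [sum_congr rfl this, sum_sub_distrib, ← mul_sum, sum_add_distrib, ← e1, cnt]
    simp only [sum_const, nsmul_eq_mul, mul_one]
    field_simp
    ring
  exact e2 ▸ sum_le_sum fun k _ => min_le_left _ _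

lemma hiA {g gb m R ν : ℝ} (hm : 0 < m) (h1 : m ≤ gb) (h2 : gb ≤ g + 2 * R) (hR : 0 ≤ R)
    (h0 : 0 ≤ ν) (h3 : ν ≤ 1) : m * ν - 2 * R ≤ g / gb * (m * ν) := by
  rw [div_mul_eq_mul_div, le_div_iff₀ (by linarith)]
  have a : 0 ≤ m * ν := by positivity
  have b : m * ν ≤ gb := by nlinarith
  nlinarith [mul_le_mul_of_nonneg_right h2 a, mul_le_mul_of_nonneg_left b hR]

lemma loA {g gb m R ν : ℝ} (hm : 0 < m) (h1 : m ≤ gb) (h2 : g ≤ gb + 2 * R) (hR : 0 ≤ R)
    (h0 : 0 ≤ ν) (h3 : ν ≤ 1) : m * ν - m - 2 * R ≤ g / gb * (m * ν - m) := by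
  rw [div_mul_eq_mul_div, le_div_iff₀ (by linarith)]
  have a : 0 ≤ m - m * ν := by nlinarith
  have b : m - m * ν ≤ gb := by nlinarith
  nlinarith [mul_le_mul_of_nonneg_right h2 a, mul_le_mul_of_nonneg_left b hR]

lemma two (x : ℝ) : x * (1 - min (x - 1) 1) ≤ 1 := by
  rcases le_total (x - 1) 1 with h | h
  · rw [min_eq_left h]
    nlinarith [sq_nonneg (x - 1)]
  · rw [min_eq_right h]
    norm_num

lemma quadB {x b d e : ℝ} (hx : 0 ≤ x) (hb : 0 ≤ b) (hd : 0 ≤ d) (he : 0 ≤ e)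
    (h : d ≤ e ∨ (0 < b ∧ d ^ 2 ≤ 4 * b * e)) :
    b * (x - 1) - e ≤ x * (b * min (x - 1) 1 - d * max (1 - x) 0) := by
  rcases le_total 1 x with h1 | h1
  · rw [max_eq_right (by linarith)]
    rcases le_total (x - 1) 1 with h2 | h2
    · rw [min_eq_left h2]
      nlinarith [mul_nonneg hb (sq_nonneg (x - 1))]
    · rw [min_eq_right h2]
      nlinarith
  · rw [max_eq_left (by linarith), min_eq_left (by linarith)]
    have a : 0 ≤ d * (1 - x) ^ 2 := by positivity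
    rcases h with h | ⟨h0, h⟩
    · nlinarith [mul_nonneg hb (sq_nonneg (x - 1)), mul_nonneg hd hx]
    · have : 0 ≤ b * (b * (1 - x) ^ 2 - d * (1 - x) + e) := by
        nlinarith [sq_nonneg (2 * b * (1 - x) - d)]
      have := nonneg_of_mul_nonneg_right this h0
      nlinarith

lemma stepB {x b d β : ℝ} (h1 : b ≤ β) (h2 : β ≤ b + d) :
    b * min (x - 1) 1 - d * max (1 - x) 0 ≤ β * min (x - 1) 1 := by
  rcases le_total 1 x with h | h
  · rw [max_eq_right (by linarith)]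
    have : 0 ≤ min (x - 1) 1 := le_min (by linarith) zero_le_one
    nlinarith
  · rw [max_eq_left (by linarith), min_eq_left (by linarith)]
    nlinarith

/-- the abundance seen from a top point depends on the cell only -/
structure Red [DecidableEq ι] (C : Finset ι) (γ z : ι → ℕ) (X : ℕ → ℝ) (N' : ℝ) : Prop where
  eq : N' = dp C z - 1 + (C.image γ).card
  pos : 0 < N'
  nn : ∀ c, 0 ≤ X c
  hh : ∀ k ∈ C, 0 < z k → hh C γ (z - ee k) k = min (X (γ k) - 1) 1
  sum : ∀ φ : ℕ → ℝ, ∑ k ∈ C, (z k : ℝ) * φ (γ k) = N' / C.card * ∑ k ∈ C, X (γ k) * φ (γ k)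

variable [DecidableEq ι] {C : Finset ι} {γ z : ι → ℕ} {X : ℕ → ℝ} {N' : ℝ}

lemma red (hC : C.Nonempty) (γ : ι → ℕ) (hD : dp C z ≠ 0) : ∃ X N', Red C γ z X N' := by
  have hJ : (0 : ℝ) < (C.image γ).card := Nat.cast_pos.2 (card_pos.2 (hC.image γ))
  have hP : (0 : ℝ) < C.card := Nat.cast_pos.2 (card_pos.2 hC)
  have h1 : (1 : ℝ) ≤ dp C z := by exact_mod_cast Nat.one_le_iff_ne_zero.2 hD
  obtain ⟨N', hN⟩ : ∃ N' : ℝ, N' = dp C z - 1 + (C.image γ).card := ⟨_, rfl⟩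
  have h0 : 0 < N' := by linarith
  refine ⟨fun c => (dp (C.filter fun j => γ j = c) z : ℝ) * C.card /
    (N' * (C.filter fun j => γ j = c).card), N', hN, h0, fun c => by positivity,
    fun k hk hz => ?_, fun φ => ?_⟩
  · have a : (dp (cell C γ k) (z - ee k) : ℝ) + 1 = dp (cell C γ k) z := by
      exact_mod_cast dp_mem (P := cell C γ k) (mem_filter.2 ⟨hk, rfl⟩) hz
    have b : (dp C (z - ee k) : ℝ) + 1 = dp C z := by exact_mod_cast dp_mem hk hz
    rw [H16.hh, a, show (dp C (z - ee k) : ℝ) + (C.image γ).card = N' by linarith]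
    rfl
  · rw [fib, mul_sum]
    refine sum_congr rfl fun k hk => ?_
    have := (cell_pos γ hk).ne'
    rw [← dp_cast]
    change _ = N' / C.card * ((dp (cell C γ k) z : ℝ) * C.card / (N' * (cell C γ k).card) * _)
    field_simp

omit [DecidableEq ι] in
lemma lower {φ T : ι → ℝ} (h : ∀ k ∈ C, 0 < z k → φ k ≤ T k) :
    ∑ k ∈ C, (z k : ℝ) * φ k ≤ ∑ k ∈ C, (z k : ℝ) * T k :=
  sum_le_sum fun k hk => by
    rcases Nat.eq_zero_or_pos (z k) with e | e
    · simp [e]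
    · exact mul_le_mul_of_nonneg_left (h k hk e) (Nat.cast_nonneg _)

lemma sumA (hC : C.Nonempty) (h : Red C γ z X N') {m E N ν : ℝ} {lw : ℕ → ℝ} {T : ι → ℝ}
    (hm : 0 ≤ m) (hE : 0 ≤ E) (hN : (dp C z : ℝ) + (C.image γ).card ≤ N) (hl : ∀ c, 0 ≤ lw c)
    (hν : ν = (∑ k ∈ C, lw (γ k)) / C.card) (h0 : 0 ≤ ν) (h1 : ν ≤ 1)
    (hT : ∀ k ∈ C, 0 < z k → m * ν - E - m * (lw (γ k) * (1 - min (X (γ k) - 1) 1)) ≤ T k) :
    -(m * (C.image γ).card + N * E) ≤ ∑ k ∈ C, (z k : ℝ) * T k := by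
  have hP : (0 : ℝ) < C.card := Nat.cast_pos.2 (card_pos.2 hC)
  have hJ : (0 : ℝ) ≤ (C.image γ).card := Nat.cast_nonneg _
  refine le_trans ?_ (lower hT)
  have a := h.sum fun c => lw c * (1 - min (X c - 1) 1)
  have b : ∑ k ∈ C, X (γ k) * (lw (γ k) * (1 - min (X (γ k) - 1) 1)) ≤ ∑ k ∈ C, lw (γ k) :=
    sum_le_sum fun k _ => by nlinarith [mul_le_mul_of_nonneg_left (two (X (γ k))) (hl (γ k))]
  have c : ∑ k ∈ C, (z k : ℝ) * (lw (γ k) * (1 - min (X (γ k) - 1) 1)) ≤ N' * ν := by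
    rw [a, hν, div_mul_eq_mul_div, mul_div_assoc]
    exact mul_le_mul_of_nonneg_left (div_le_div_of_nonneg_right b hP.le) h.pos.le
  have e : ∑ k ∈ C, (z k : ℝ) * (m * ν - E - m * (lw (γ k) * (1 - min (X (γ k) - 1) 1))) =
      dp C z * (m * ν - E) - m * ∑ k ∈ C, (z k : ℝ) * (lw (γ k) * (1 - min (X (γ k) - 1) 1)) := by
    rw [dp_cast, sum_mul, mul_sum, ← sum_sub_distrib]
    exact sum_congr rfl fun k _ => by ring
  rw [e]
  have f := mul_le_mul_of_nonneg_left c hm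
  rw [h.eq] at f
  have g1 : (dp C z : ℝ) * E ≤ N * E := mul_le_mul_of_nonneg_right (by linarith) hE
  have g2 : m * ν * (C.image γ).card ≤ m * 1 * (C.image γ).card := by gcongr
  nlinarith [mul_nonneg hm h0]

lemma sumB (hC : C.Nonempty) (h : Red C γ z X N') {m e N b d : ℝ} {T : ι → ℝ} (hb : 0 ≤ b)
    (hm : b ≤ m) (hd : 0 ≤ d) (he : 0 ≤ e) (hN : (dp C z : ℝ) + (C.image γ).card ≤ N)
    (hq : d ≤ e ∨ (0 < b ∧ d ^ 2 ≤ 4 * b * e))
    (hT : ∀ k ∈ C, 0 < z k → b * min (X (γ k) - 1) 1 - d * max (1 - X (γ k)) 0 ≤ T k) :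
    -(m * (C.image γ).card + N * e) ≤ ∑ k ∈ C, (z k : ℝ) * T k := by
  have hP : (0 : ℝ) < C.card := Nat.cast_pos.2 (card_pos.2 hC)
  have hJ : (0 : ℝ) ≤ (C.image γ).card := Nat.cast_nonneg _
  refine le_trans ?_ (lower hT)
  rw [h.sum fun c => b * min (X c - 1) 1 - d * max (1 - X c) 0]
  have a := h.sum fun _ => 1
  simp only [mul_one, ← dp_cast] at a
  have c : ∑ k ∈ C, (b * (X (γ k) - 1) - e) ≤
      ∑ k ∈ C, X (γ k) * (b * min (X (γ k) - 1) 1 - d * max (1 - X (γ k)) 0) :=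
    sum_le_sum fun k _ => quadB (h.nn _) hb hd he hq
  refine le_trans ?_ (mul_le_mul_of_nonneg_left c (div_pos h.pos hP).le)
  have f : N' / C.card * ∑ k ∈ C, (b * (X (γ k) - 1) - e) = b * dp C z - (b + e) * N' := by
    rw [a, sum_sub_distrib, ← mul_sum, sum_sub_distrib]
    simp only [sum_const, nsmul_eq_mul, mul_one]
    field_simp
    ring
  rw [f]
  have g1 : e * N' ≤ e * N := mul_le_mul_of_nonneg_left (by linarith [h.eq]) he
  have g2 : b * (C.image γ).card ≤ m * (C.image γ).card := by gcongr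
  have g3 : b * N' = b * (dp C z - 1 + (C.image γ).card) := by rw [h.eq]
  linarith

end CellA

open CellA in
theorem cellS : CellStmt := by
  intro ι _ _ g γ C m s R t ξ N hC hR hm hs ht hL hξ0 hξ1 hN hk
  refine ⟨fun y k => ⟨le_min ?_ (by norm_num), min_le_right _ _⟩, sum_hh hC γ, ?_⟩
  · have : 0 ≤ ((dp (cell C γ k) y : ℝ) + 1) * C.card /
      (((dp C y : ℝ) + (C.image γ).card) * (cell C γ k).card) := by positivity
    linarith
  obtain ⟨L, hLe⟩ : ∃ L, L = 3 * R * t ^ 2 := ⟨_, rfl⟩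
  obtain ⟨U, hU⟩ : ∃ U, U = 3 * R * t := ⟨_, rfl⟩
  have hUL : L = U * t := by rw [hLe, hU]; ring
  have hRU : 3 * R ≤ U := hU ▸ Nat.le_mul_of_pos_right _ ht
  have hUL' : U ≤ L := hUL ▸ Nat.le_mul_of_pos_right _ ht
  have rL : (L : ℝ) = 3 * R * t ^ 2 := by rw [hLe]; push_cast; ring
  have rU : (U : ℝ) = 3 * R * t := by rw [hU]; push_cast; ring
  rw [← hLe] at hL ⊢
  have rt : (1 : ℝ) ≤ t := by exact_mod_cast ht
  have rR : (1 : ℝ) ≤ R := by exact_mod_cast hR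
  have rm : (0 : ℝ) < m := by exact_mod_cast (by omega : 0 < m)
  have hP : (0 : ℝ) < C.card := Nat.cast_pos.2 (card_pos.2 hC)
  have L0 : (0 : ℝ) < L := by rw [rL]; positivity
  obtain ⟨E, hE⟩ : ∃ E : ℝ, E = 2 * R + m * ξ + m / t ^ 2 := ⟨_, rfl⟩
  have E0 : 0 ≤ E := by rw [hE]; positivity
  obtain ⟨J, hJ⟩ : ∃ J : ℝ, J = (C.image γ).card := ⟨_, rfl⟩
  have J0 : 0 ≤ J := hJ ▸ Nat.cast_nonneg _
  rw [← hE, ← hJ]
  have i0 := ind_nonneg m
  obtain ⟨err, herr⟩ : ∃ err : ℕ → ℝ, err = fun j => ind m (L + 3 * R) (L + 3 * R) j * (m * J) +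
    N * (ind m (3 * R) (3 * R) j * E + ind m (L + 3 * R) (U + 3 * R) j * (m / t ^ 2) +
      ind m L L j * (m / (2 * t ^ 3))) := ⟨_, rfl⟩
  have err0 : ∀ j, 0 ≤ err j := fun j => by
    have := i0 (L + 3 * R) (L + 3 * R) j
    have := i0 (3 * R) (3 * R) j
    have := i0 (L + 3 * R) (U + 3 * R) j
    have := i0 L L j
    rw [herr]
    positivity
  refine ⟨err, err0, ?_, fun z l hl hz => ?_⟩
  · simp only [herr, sum_add_distrib, ← mul_sum, ← sum_mul]
    have a1 := sum_ind m (L + 3 * R) (L + 3 * R)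
    have a2 := sum_ind m (3 * R) (3 * R)
    have a3 := sum_ind m (L + 3 * R) (U + 3 * R)
    have a4 := sum_ind m L L
    push_cast at a1 a2 a3
    rw [rL] at a1 a4
    rw [rU] at a3
    have b : (3 * R * t + 3 * R) * ((m : ℝ) / t ^ 2) + 3 * R * t ^ 2 * (m / (2 * t ^ 3)) ≤
        8 * R * m / t := by
      have : (3 * R * t + 3 * R) * ((m : ℝ) / t ^ 2) ≤ (3 * R * t + 3 * R * t) * (m / t ^ 2) :=
        mul_le_mul_of_nonneg_right (by nlinarith only [rt, rR]) (by positivity)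
      refine (add_le_add this le_rfl).trans ?_
      have e : (3 * R * t + 3 * R * t) * ((m : ℝ) / t ^ 2) + 3 * R * t ^ 2 * (m / (2 * t ^ 3)) =
          15 / 2 * R * m / t := by
        field_simp
        ring
      rw [e]
      gcongr
      norm_num
    refine add_le_add (mul_le_mul_of_nonneg_right a1 (by positivity))
      (mul_le_mul_of_nonneg_left ?_ hN)
    have c2 := mul_le_mul_of_nonneg_right a2 E0
    have c3 := mul_le_mul_of_nonneg_right a3 (by positivity : 0 ≤ (m : ℝ) / t ^ 2)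
    have c4 := mul_le_mul_of_nonneg_right a4 (by positivity : 0 ≤ (m : ℝ) / (2 * t ^ 3))
    linarith
  obtain ⟨gb, hgb⟩ : ∃ gb : ℝ, gb = (∑ k ∈ C, (g k : ℝ)) / C.card := ⟨_, rfl⟩
  have g1 : (m : ℝ) ≤ gb := by
    rw [hgb, le_div_iff₀ hP, mul_comm, ← nsmul_eq_mul, ← sum_const]
    exact sum_le_sum fun k h => by exact_mod_cast (hk k h).1.trans (hk k h).2.1
  have g2 : gb ≤ s + R := by
    rw [hgb, div_le_iff₀ hP, mul_comm, ← nsmul_eq_mul, ← sum_const]
    exact sum_le_sum fun k h => by exact_mod_cast (hk k h).2.2.2.1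
  have g3 : (s : ℝ) - R ≤ gb := by
    rw [hgb, le_div_iff₀ hP, mul_comm, ← nsmul_eq_mul, ← sum_const]
    exact sum_le_sum fun k h => sub_le_iff_le_add.2 (by exact_mod_cast (hk k h).2.2.2.2)
  obtain ⟨Q, hQ⟩ : ∃ Q : ℝ, Q = (∑ k ∈ C, fl m (l + γ k)) / C.card := ⟨_, rfl⟩
  obtain ⟨j, hj⟩ : ∃ j, j = (l + (s - 2 * R)) % m := ⟨_, rfl⟩
  obtain ⟨k0, hk0⟩ : ∃ k0, k0 = (l + (s - 2 * R)) / m := ⟨_, rfl⟩
  have jm : j < m := hj ▸ Nat.mod_lt _ (by omega)
  have dj : m * k0 + j = l + (s - 2 * R) := by rw [hj, hk0]; exact Nat.div_add_mod _ _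
  rw [← hgb, ← hj]
  suffices H : -err j ≤ ∑ k ∈ C, (z k : ℝ) * (g k / gb * (fl m (l + g k) - Q) +
      bt m L ξ (l + g k) * hh C γ (z - ee k) k) by
    have e1 : (∑ k ∈ C, fl m (l + γ k)) / ∑ k ∈ C, (g k : ℝ) = Q / gb := by
      rw [hQ, hgb, div_div_div_cancel_right₀ hP.ne']
    have e2 : ∑ k ∈ C, (z k : ℝ) * (g k / gb * (fl m (l + g k) - Q) +
        bt m L ξ (l + g k) * hh C γ (z - ee k) k) = ∑ k ∈ C, (z k : ℝ) *
        (g k / gb * fl m (l + g k) + bt m L ξ (l + g k) * hh C γ (z - ee k) k) -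
        (∑ k ∈ C, (z k : ℝ) * g k) * (Q / gb) := by
      rw [sum_mul, ← sum_sub_distrib]
      exact sum_congr rfl fun k _ => by ring
    rw [e1]
    linarith
  by_cases hD : dp C z = 0
  · rw [sum_eq_zero fun k h => by rw [sum_eq_zero_iff.1 hD k h, Nat.cast_zero, zero_mul]]
    linarith [err0 j]
  obtain ⟨X, N', hX⟩ := red hC γ hD
  have p1 := mul_nonneg (i0 (3 * R) (3 * R) j) E0
  have p2 := mul_nonneg (i0 (L + 3 * R) (U + 3 * R) j) (by positivity : 0 ≤ (m : ℝ) / t ^ 2)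
  have p3 := mul_nonneg (i0 L L j) (by positivity : 0 ≤ (m : ℝ) / (2 * t ^ 3))
  have rr : 3 * (R : ℝ) / L = 1 / t ^ 2 := by rw [rL]; field_simp
  rw [hJ] at hz
  by_cases hA : m ≤ j + 3 * R
  · obtain ⟨lw, hlw⟩ : ∃ lw : ℕ → ℝ, lw = fun c => if l + c < m * k0 + m then 1 else 0 := ⟨_, rfl⟩
    have l0 : ∀ c, 0 ≤ lw c ∧ lw c ≤ 1 := fun c => by
      simp only [hlw]
      split_ifs <;> norm_num
    obtain ⟨ν, hν⟩ : ∃ ν, ν = (∑ k ∈ C, lw (γ k)) / C.card := ⟨_, rfl⟩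
    have n0 : 0 ≤ ν := hν ▸ div_nonneg (sum_nonneg fun k _ => (l0 _).1) hP.le
    have n1 : ν ≤ 1 := by
      rw [hν, div_le_iff₀ hP, mul_comm, ← nsmul_eq_mul, ← sum_const]
      exact sum_le_sum fun k _ => (l0 _).2
    have eQ : Q = m * k0 + m - m * ν := by
      have : ∀ k ∈ C, fl m (l + γ k) = m * k0 + m - m * lw (γ k) := fun k h => by
        obtain ⟨a, b, c, d, e⟩ := hk k h
        simp only [hlw]
        split_ifs with f
        · rw [fl_lo (k := k0) (u := m * k0 + m - (l + γ k)) (by omega) (by omega) (by omega)]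
          ring
        · rw [fl_hi (k := k0) (r := l + γ k - (m * k0 + m)) (by omega) (by omega)]
          ring
      rw [hQ, hν, sum_congr rfl this, sum_sub_distrib, ← mul_sum]
      simp only [sum_const, nsmul_eq_mul]
      field_simp
    refine le_trans ?_ (sumA hC hX rm.le E0 hz (fun c => (l0 c).1) hν n0 n1 fun k h hzk => ?_)
    · simp only [herr]
      rw [ind_one (by omega : m ≤ j + (L + 3 * R)) (by omega), ind_one hA (by omega), ← hJ]
      linarith only [mul_nonneg hN p2, mul_nonneg hN p3]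
    obtain ⟨a, b, c, d, e⟩ := hk k h
    have rd : (g k : ℝ) ≤ s + R := by exact_mod_cast d
    have re : (s : ℝ) ≤ g k + R := by exact_mod_cast e
    have h1 : min (X (γ k) - 1) 1 ≤ 1 := min_le_right _ _
    rw [hX.hh k h hzk, eQ]
    by_cases f : l + g k < m * k0 + m
    · obtain ⟨u, hu⟩ : ∃ u, l + g k + u = m * k0 + m := ⟨m * k0 + m - (l + g k), by omega⟩
      have ru : (u : ℝ) ≤ 3 * R := by exact_mod_cast (by omega : u ≤ 3 * R)
      have q1 : (u : ℝ) / L ≤ 1 / t ^ 2 := rr ▸ div_le_div_of_nonneg_right ru L0.le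
      have q2 : 0 ≤ (u : ℝ) / L := by positivity
      have q3 : 1 / (t : ℝ) ^ 2 ≤ 1 := by
        rw [div_le_one (by positivity)]
        exact one_le_pow₀ rt
      have q4 := loA rm g1 (g := g k) (R := R) (by linarith) (by linarith) n0 n1
      have q5 : lw (γ k) = 1 := by simp only [hlw]; exact if_pos (by omega)
      rw [fl_lo hu (by omega) (by omega), bt_lo L ξ (by omega) hu (by omega) (by omega),
        max_eq_left (by linarith), q5, show (m : ℝ) * k0 - (m * k0 + m - m * ν) = m * ν - m by ring]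
      have q6 : 0 ≤ 1 - (1 - ξ) * (1 - (u : ℝ) / L) := by nlinarith only [q1, q2, q3, hξ0, hξ1]
      have q7 : 1 - (1 - ξ) * (1 - (u : ℝ) / L) ≤ ξ + 1 / t ^ 2 := by
        nlinarith only [q1, mul_nonneg hξ0 q2]
      have q8 := mul_le_mul_of_nonneg_left
        ((mul_le_mul_of_nonneg_left h1 q6).trans (by linarith : _ ≤ ξ + 1 / (t : ℝ) ^ 2)) rm.le
      have q9 : (m : ℝ) / t ^ 2 = m * (1 / t ^ 2) := by ring
      linarith
    · obtain ⟨r, hr⟩ : ∃ r, l + g k = m * k0 + m + r := ⟨l + g k - (m * k0 + m), by omega⟩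
      have q4 := hiA rm g1 (g := g k) (R := R) (by linarith) (by linarith) n0 n1
      rw [fl_hi hr (by omega), bt_hi ξ hr (by omega) (by omega),
        show (m : ℝ) * k0 + m - (m * k0 + m - m * ν) = m * ν by ring]
      have q5 := mul_nonneg rm.le (mul_nonneg (l0 (γ k)).1 (sub_nonneg.2 h1))
      have q6 : 0 ≤ (m : ℝ) * ξ + m / t ^ 2 := by positivity
      linarith
  obtain ⟨y, hy⟩ : ∃ y, j + y = m := ⟨m - j, by omega⟩
  have eQ : Q = m * k0 := by
    have : ∀ k ∈ C, fl m (l + γ k) = m * k0 := fun k h => by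
      obtain ⟨a, b, c, d, e⟩ := hk k h
      exact fl_lo (u := m * k0 + m - (l + γ k)) (by omega) (by omega) (by omega)
    rw [hQ, sum_congr rfl this, sum_const, nsmul_eq_mul]
    field_simp
  have hT : ∀ k ∈ C, ∃ u : ℕ, u ≤ y ∧ y ≤ u + 3 * R ∧ g k / gb * (fl m (l + g k) - Q) +
      bt m L ξ (l + g k) * hh C γ (z - ee k) k =
      m * (1 - ξ) * max (1 - (u : ℝ) / L) 0 * hh C γ (z - ee k) k := fun k h => by
    obtain ⟨a, b, c, d, e⟩ := hk k h
    obtain ⟨u, hu⟩ : ∃ u, l + g k + u = m * k0 + m := ⟨m * k0 + m - (l + g k), by omega⟩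
    refine ⟨u, by omega, by omega, ?_⟩
    rw [fl_lo hu (by omega) (by omega), bt_lo L ξ (by omega) hu (by omega) (by omega), eQ]
    ring
  by_cases hB : m ≤ j + (L + 3 * R)
  swap
  · rw [sum_eq_zero fun k h => ?_]
    · linarith [err0 j]
    obtain ⟨u, a, b, c⟩ := hT k h
    have ru : (L : ℝ) ≤ u := by exact_mod_cast (by omega : L ≤ u)
    rw [c, max_eq_right (by rw [sub_nonpos, le_div_iff₀ L0]; linarith)]
    ring
  obtain ⟨b, hb⟩ : ∃ b : ℝ, b = m * (1 - ξ) * max (1 - (y : ℝ) / L) 0 := ⟨_, rfl⟩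
  have x1 : 0 ≤ (m : ℝ) * (1 - ξ) := mul_nonneg rm.le (by linarith)
  have x2 : (m : ℝ) * (1 - ξ) ≤ m := by linarith only [mul_nonneg rm.le hξ0]
  have b0 : 0 ≤ b := hb ▸ mul_nonneg x1 (le_max_right _ _)
  have b1 : b ≤ m := by
    have : max (1 - (y : ℝ) / L) 0 ≤ 1 := max_le (sub_le_self _ (by positivity)) zero_le_one
    rw [hb]
    exact (mul_le_of_le_one_right x1 this).trans x2
  have d0 : 0 ≤ (m : ℝ) / t ^ 2 := by positivity
  have hT' : ∀ k ∈ C, 0 < z k → b * min (X (γ k) - 1) 1 - m / t ^ 2 * max (1 - X (γ k)) 0 ≤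
      g k / gb * (fl m (l + g k) - Q) + bt m L ξ (l + g k) * hh C γ (z - ee k) k := by
    intro k h hzk
    obtain ⟨u, a, a', c⟩ := hT k h
    have ru : (u : ℝ) ≤ y := by exact_mod_cast a
    have ru' : (y : ℝ) ≤ u + 3 * R := by exact_mod_cast a'
    have q1 : (u : ℝ) / L ≤ y / L := div_le_div_of_nonneg_right ru L0.le
    have q2 : (y : ℝ) / L ≤ u / L + 1 / t ^ 2 := by
      rw [← rr, ← add_div]
      exact div_le_div_of_nonneg_right ru' L0.le
    have q3 : 0 ≤ 1 / (t : ℝ) ^ 2 := by positivity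
    have q4 : max (1 - (u : ℝ) / L) 0 ≤ max (1 - (y : ℝ) / L) 0 + 1 / t ^ 2 :=
      max_le (by linarith [le_max_left (1 - (y : ℝ) / L) 0])
        (by linarith [le_max_right (1 - (y : ℝ) / L) 0])
    rw [c, hX.hh k h hzk]
    refine stepB (hb ▸ mul_le_mul_of_nonneg_left (max_le_max (by linarith) le_rfl) x1) ?_
    have q5 := mul_le_mul_of_nonneg_left q4 x1
    have q6 := mul_le_mul_of_nonneg_right x2 q3
    have q9 : (m : ℝ) / t ^ 2 = m * (1 / t ^ 2) := by ring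
    rw [hb]
    linarith
  by_cases hc : j + L < m + U
  · refine le_trans ?_ (sumB hC hX b0 b1 d0 d0 hz (Or.inl le_rfl) hT')
    simp only [herr]
    rw [ind_one hB (by omega), ind_one hB (by omega), ← hJ]
    linarith only [mul_nonneg hN p1, mul_nonneg hN p3]
  · have ry : (y : ℝ) + U ≤ L := by exact_mod_cast (by omega : y + U ≤ L)
    have q1 : 1 / (t : ℝ) ≤ 1 - y / L := by
      have e : 1 / (t : ℝ) = U / L := by rw [rL, rU]; field_simp
      rw [e, le_sub_iff_add_le, ← add_div, div_le_one L0]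
      linarith
    have q2 : (m : ℝ) / 2 * (1 / t) ≤ b :=
      hb ▸ mul_le_mul (by nlinarith only [rm, hξ1]) (q1.trans (le_max_left _ _)) (by positivity) x1
    have e0 : 0 ≤ (m : ℝ) / (2 * t ^ 3) := by positivity
    refine le_trans ?_ (sumB hC hX b0 b1 d0 e0 hz (Or.inr ⟨lt_of_lt_of_le (by positivity) q2, ?_⟩) hT')
    · simp only [herr]
      rw [ind_one hB (by omega), ind_one (by omega : m ≤ j + L) (by omega), ← hJ]
      linarith only [mul_nonneg hN p1, mul_nonneg hN p2]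
    · have e : ((m : ℝ) / t ^ 2) ^ 2 = 4 * (m / 2 * (1 / t)) * (m / (2 * t ^ 3)) := by
        field_simp
        ring
      rw [e]
      gcongr

end Pool.Agent.MP_96f5a9_co.H16
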